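import Pool.Agent.H510Z.Schunck.Grp

set_option autoImplicit false

namespace Pool.Agent.H510Z.Schunck

open Function

/-! ### General lemmas -/

lemma isPrim_transport {A B : Type} [Group A] [Group B] (e : A ≃* B) (h : IsPrim A) :
    IsPrim B := by
  obtain ⟨M, hM, hc⟩ := h
  refine ⟨M.map e.toMonoidHom, ?_, ?_⟩
  · have := (OrderIso.isCoatom_iff (e.mapSubgroup) M).mpr hM
    exact this
  · rw [eq_bot_iff]
    intro x hx
    have h1 : e.symm x ∈ M.normalCore := by
      intro b
      have h2 := hx (e b)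
      obtain ⟨m, hm, hm2⟩ := h2
      have h3 : b * e.symm x * b⁻¹ = m := by
        apply e.injective
        rw [map_mul, map_mul, map_inv, e.apply_symm_apply]
        exact hm2.symm
      rw [h3]; exact hm
    rw [hc, Subgroup.mem_bot] at h1
    rw [Subgroup.mem_bot]
    have := congrArg e h1
    rwa [e.apply_symm_apply, map_one] at this

lemma simple_zmod (p : ℕ) [Fact p.Prime] : IsSimpleGroup (Multiplicative (ZMod p)) := by
  apply isSimpleGroup_of_prime_card (p := p)
  simp [Nat.card_eq_fintype_card]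

lemma isPrim_zmod (p : ℕ) [Fact p.Prime] : IsPrim (Multiplicative (ZMod p)) := by
  have hs := simple_zmod p
  have : IsCyclic (Multiplicative (ZMod p)) := inferInstance
  exact ⟨⊥, isCoatom_bot, Subgroup.normalCore_eq_self ⊥⟩

/-- descend an epimorphism to a quotient -/
lemma descend {R P : Type} [Group R] [Group P] (N : Subgroup R) [N.Normal] (f : R →* P)
    (hf : Surjective f) (h : N.map f = ⊥) :
    ∃ g : R ⧸ N →* P, Surjective g := by
  have hk : N ≤ f.ker := by
    intro x hx
    rw [MonoidHom.mem_ker, ← Subgroup.mem_bot, ← h]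
    exact ⟨x, hx, rfl⟩
  refine ⟨QuotientGroup.lift N f hk, ?_⟩
  intro z
  obtain ⟨x, rfl⟩ := hf z
  exact ⟨(x : R ⧸ N), rfl⟩

lemma simple_map {R P : Type} [Group R] [Group P] [IsSimpleGroup P] (f : R →* P)
    (hf : Surjective f) (N : Subgroup R) [hNn : N.Normal]
    (hN : ∀ g : N →* P, ¬ Surjective g) : N.map f = ⊥ := by
  rcases (hNn.map f hf).eq_bot_or_eq_top with h | h
  · exact h
  · exfalso
    apply hN (f.comp N.subtype)
    intro z
    have : z ∈ N.map f := by rw [h]; trivial
    obtain ⟨x, hx, hx2⟩ := this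
    exact ⟨⟨x, hx⟩, hx2⟩

/-- a class closed under epimorphic images -/
def SurjClosed (X : GroupClass) : Prop :=
  ∀ (A B : Type) [Group A] [Group B] (g : A →* B), Surjective g → X A → X B

lemma surj_map {A B : Type} [Group A] [Group B] (f : A →* B) (K : Subgroup A) :
    ∃ g : K →* K.map f, Surjective g :=
  ⟨f.subgroupMap K, f.subgroupMap_surjective K⟩

lemma proj_cover {X : GroupClass} (hX : SurjClosed X) {R : Type} [Group R] {S : Subgroup R}
    (hS : IsProj X S) (N : Subgroup R) [N.Normal] (hN : X (R ⧸ N)) :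
    S.map (QuotientGroup.mk' N) = ⊤ := by
  symm
  apply (hS N).2 ⊤ le_top
  exact hX _ _ (Subgroup.topEquiv (G := R ⧸ N)).symm.toMonoidHom
      (Subgroup.topEquiv (G := R ⧸ N)).symm.surjective hN

lemma mk_bot_inj {R : Type} [Group R] : Injective (QuotientGroup.mk' (⊥ : Subgroup R)) := by
  rw [← MonoidHom.ker_eq_bot_iff, QuotientGroup.ker_mk']

lemma proj_max {X : GroupClass} (hX : SurjClosed X) {R : Type} [Group R] {S : Subgroup R}
    (hS : IsProj X S) : IsMaxSub X S := by
  obtain ⟨h1, h2⟩ := hS ⊥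
  constructor
  · let e := S.equivMapOfInjective _ (mk_bot_inj (R := R))
    exact hX _ _ e.symm.toMonoidHom e.symm.surjective h1
  · intro K hK hXK
    obtain ⟨g, hg⟩ := surj_map (QuotientGroup.mk' (⊥ : Subgroup R)) K
    have h3 := h2 _ (Subgroup.map_mono hK) (hX _ _ g hg hXK)
    exact Subgroup.map_injective mk_bot_inj h3

lemma proj_top {X : GroupClass} (hX : SurjClosed X) {R : Type} [Group R] {S : Subgroup R}
    (hS : IsProj X S) (hR : X R) : S = ⊤ := by
  symm
  apply (proj_max hX hS).2 ⊤ le_top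
  exact hX _ _ (Subgroup.topEquiv (G := R)).symm.toMonoidHom
      (Subgroup.topEquiv (G := R)).symm.surjective hR

lemma isPrim_core {R : Type} [Group R] {M : Subgroup R} (hM : IsCoatom M) :
    IsPrim (R ⧸ M.normalCore) := by
  set N := M.normalCore
  have hNM : N ≤ M := M.normalCore_le
  have hker : (QuotientGroup.mk' N).ker ≤ M := by rw [QuotientGroup.ker_mk']; exact hNM
  have hcm : (M.map (QuotientGroup.mk' N)).comap (QuotientGroup.mk' N) = M :=
    Subgroup.comap_map_eq_self hker
  refine ⟨M.map (QuotientGroup.mk' N), ⟨?_, ?_⟩, ?_⟩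
  · intro h
    apply hM.1
    rw [← hcm, h, Subgroup.comap_top]
  · intro K hK
    have h1 : M < K.comap (QuotientGroup.mk' N) := by
      refine lt_of_le_of_ne ?_ ?_
      · exact hcm.symm.le.trans (Subgroup.comap_mono hK.le)
      · intro h
        apply hK.ne
        exact (congrArg (Subgroup.map (QuotientGroup.mk' N)) h).trans
          (Subgroup.map_comap_eq_self_of_surjective (QuotientGroup.mk'_surjective N) K)
    have h2 := hM.2 _ h1
    rw [← Subgroup.map_comap_eq_self_of_surjective (QuotientGroup.mk'_surjective N) K, h2]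
    exact Subgroup.map_top_of_surjective _ (QuotientGroup.mk'_surjective N)
  · rw [eq_bot_iff]
    intro x hx
    obtain ⟨y, rfl⟩ := QuotientGroup.mk'_surjective N x
    have h1 : y ∈ N := by
      intro b
      have h2 := hx (QuotientGroup.mk' N b)
      apply hcm.le
      rw [Subgroup.mem_comap, map_mul, map_mul, map_inv]
      exact h2
    rw [Subgroup.mem_bot, QuotientGroup.mk'_apply, QuotientGroup.eq_one_iff]
    exact h1

/-! ### The class of 5-groups -/

instance fact5 : Fact (Nat.Prime 5) := ⟨by norm_num⟩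

/-- finite (soluble) 5-groups -/
def YY : GroupClass := fun R _ => Finite R ∧ Group.IsSolvable R ∧ IsPGroup 5 R

lemma YY_surj : SurjClosed YY := by
  intro A B _ _ g hg h
  obtain ⟨h1, h2, h3⟩ := h
  exact ⟨Finite.of_surjective g hg, Group.isSolvable_of_surjective hg, h3.of_surjective g hg⟩

lemma isSchunck_YY : IsSchunck YY where
  soluble := fun _ _ h => ⟨h.1, h.2.1⟩
  iso := fun _ _ _ _ ⟨e⟩ h => YY_surj _ _ e.toMonoidHom e.surjective h
  quot := fun _ _ N _ h => YY_surj _ _ (QuotientGroup.mk' N) (QuotientGroup.mk'_surjective N) h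
  prim := by
    intro R _ _ hs hall
    refine ⟨inferInstance, hs, ?_⟩
    obtain ⟨P⟩ : Nonempty (Sylow 5 R) := inferInstance
    have htop : (P : Subgroup R) = ⊤ := by
      rcases eq_top_or_exists_le_coatom (P : Subgroup R) with h | ⟨M, hM, hPM⟩
      · exact h
      · exfalso
        have h1 := (hall M.normalCore (isPrim_core hM)).2.2
        let P' := P.mapSurjective (QuotientGroup.mk'_surjective M.normalCore)
        have h2 : (⊤ : Subgroup (R ⧸ M.normalCore)) = P' :=
          P'.is_maximal' (h1.to_subgroup ⊤) le_top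
        apply hM.1
        rw [eq_top_iff]
        intro x _
        have h3 : QuotientGroup.mk' M.normalCore x ∈ (P' : Subgroup _) := by rw [← h2]; trivial
        obtain ⟨y, hy, hyx⟩ := h3
        have h4 : y⁻¹ * x ∈ M.normalCore := QuotientGroup.eq.mp hyx
        have h5 : x = y * (y⁻¹ * x) := by group
        rw [h5]
        exact M.mul_mem (hPM hy) (M.normalCore_le h4)
    have h6 := P.isPGroup'
    rw [htop] at h6
    exact h6.of_equiv Subgroup.topEquiv

lemma idem_YY : IsIdem YY := by
  intro R _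
  constructor
  · rintro ⟨h1, h2, N, hNn, hN, hQ⟩
    refine ⟨h1, h2, ?_⟩
    intro g
    obtain ⟨k, hk⟩ := hQ.2.2 (g : R ⧸ N)
    have h3 : g ^ 5 ^ k ∈ N := by
      rw [← QuotientGroup.eq_one_iff]; simpa using hk
    obtain ⟨l, hl⟩ := hN.2.2 ⟨_, h3⟩
    refine ⟨k + l, ?_⟩
    rw [pow_add, pow_mul]
    exact congrArg Subtype.val hl
  · intro h
    have := h.1
    refine ⟨h.1, h.2.1, ⊥, inferInstance, ⟨inferInstance, inferInstance, IsPGroup.of_bot⟩, ?_⟩
    exact YY_surj _ _ (QuotientGroup.mk' ⊥) (QuotientGroup.mk'_surjective ⊥) h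

/-! ### The class X -/

/-- The class: finite soluble groups without epimorphic images isomorphic to the cyclic groups of
order 3 or 5, to `D` (order 10) or to `G` (order 1620). -/
def XX : GroupClass := fun R _ =>
  Finite R ∧ Group.IsSolvable R ∧ (∀ f : R →* Multiplicative (ZMod 3), ¬ Surjective f) ∧
    (∀ f : R →* Multiplicative (ZMod 5), ¬ Surjective f) ∧
    (∀ f : R →* D, ¬ Surjective f) ∧ (∀ f : R →* G, ¬ Surjective f)

lemma XX_surj : SurjClosed XX := by
  intro A B _ _ g hg h
  obtain ⟨h1, h2, h3, h4, h5, h6⟩ := h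
  refine ⟨Finite.of_surjective g hg, Group.isSolvable_of_surjective hg, ?_, ?_, ?_, ?_⟩
  · intro f hf
    exact h3 (f.comp g) (hf.comp hg)
  · intro f hf
    exact h4 (f.comp g) (hf.comp hg)
  · intro f hf
    exact h5 (f.comp g) (hf.comp hg)
  · intro f hf
    exact h6 (f.comp g) (hf.comp hg)

lemma c_mem_D : c ∈ D := by decide

/-- the reflection subgroup of `D` -/
def refl : Subgroup D where
  carrier := {d | (d : Q).a = 0}
  mul_mem' := by
    intro x y hx hy
    change (x : Q).a + ee (x : Q).b * (y : Q).a = 0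
    rw [show (x : Q).a = 0 from hx, show (y : Q).a = 0 from hy]; simp
  one_mem' := rfl
  inv_mem' := by
    intro x hx
    change -(ee (-(x : Q).b) * (x : Q).a) = 0
    rw [show (x : Q).a = 0 from hx]; simp

lemma aux_D (q : Q) (hq : q.a ≠ 0) (hq2 : 2 * q.b = 0) : ∃ k ∈ Finset.range 5,
    q ^ k = c ∨ (q * t ^ 2) ^ k = c := by
  revert q; decide +kernel

lemma isPrim_D : IsPrim D := by
  have ht : t ^ 2 ∈ D := by decide
  refine ⟨refl, ⟨?_, ?_⟩, ?_⟩
  · intro h
    have h1 : (⟨c, c_mem_D⟩ : D) ∈ refl := by rw [h]; trivial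
    have h2 : c.a = 0 := h1
    exact absurd h2 (by decide)
  · intro K hK
    obtain ⟨hle, l, hlK, hl⟩ := SetLike.lt_iff_le_and_exists.mp hK
    have htK : (⟨t ^ 2, ht⟩ : D) ∈ K := hle (show (t ^ 2).a = 0 by decide)
    have hcK : (⟨c, c_mem_D⟩ : D) ∈ K := by
      obtain ⟨k, -, h | h⟩ := aux_D (l : Q) hl l.2
      · have : (⟨c, c_mem_D⟩ : D) = l ^ k := Subtype.ext h.symm
        rw [this]; exact K.pow_mem hlK k
      · have : (⟨c, c_mem_D⟩ : D) = (l * ⟨t ^ 2, ht⟩) ^ k := Subtype.ext h.symm
        rw [this]; exact K.pow_mem (K.mul_mem hlK htK) k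
    rw [eq_top_iff]
    rintro z -
    obtain ⟨i, -, k, -, h⟩ := gen_two (t ^ 2) (by decide) (by decide) (z : Q) z.2
    have : z = (⟨c, c_mem_D⟩ : D) ^ i * (⟨t ^ 2, ht⟩ : D) ^ k := Subtype.ext h
    rw [this]
    exact K.mul_mem (K.pow_mem hcK i) (K.pow_mem htK k)
  · rw [eq_bot_iff]
    intro x hx
    by_contra hne
    have h1 : (x : Q) ≠ 1 := fun h => hne (Subgroup.mem_bot.mpr (Subtype.ext h))
    have h2 : c ∈ refl.normalCore.map D.subtype := by
      refine c_mem (M := refl.normalCore.map D.subtype) (q := x) ?_ ⟨x, hx, rfl⟩ h1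
      rintro _ ⟨y, hy, rfl⟩
      exact ⟨(⟨c, c_mem_D⟩ : D) * y * (⟨c, c_mem_D⟩ : D)⁻¹,
        (inferInstance : refl.normalCore.Normal).conj_mem y hy _, rfl⟩
    obtain ⟨y, hy, hyc⟩ := h2
    have h3 : (y : Q).a = 0 := refl.normalCore_le hy
    rw [show (y : Q) = c from hyc] at h3
    exact absurd h3 (by decide)

/-- the complement -/
def H : Subgroup G where
  carrier := {g | g.v = 0}
  mul_mem' := by
    intro a b ha hb
    change a.v + act a.q b.v = 0
    rw [show a.v = 0 from ha, show b.v = 0 from hb, act_zero, add_zero]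
  one_mem' := rfl
  inv_mem' := by
    intro a ha
    change -(act a.q⁻¹ a.v) = 0
    rw [show a.v = 0 from ha, act_zero, neg_zero]

lemma coatom_H : IsCoatom H := by
  constructor
  · intro h
    have h1 : tr (1, 0, 0, 0) ∈ H := by rw [h]; trivial
    have h2 : ((1, 0, 0, 0) : V) = 0 := h1
    exact absurd h2 (by decide)
  · intro K hK
    obtain ⟨hle, l, hlK, hl⟩ := SetLike.lt_iff_le_and_exists.mp hK
    have h0 : ∀ q : Q, (⟨0, q⟩ : G) ∈ K := fun q => hle rfl
    have h1 : tr l.v ∈ K := by
      have : tr l.v = l * (⟨0, l.q⟩ : G)⁻¹ := by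
        rw [eq_mul_inv_iff_mul_eq]; exact (decomp l).symm
      rw [this]; exact K.mul_mem hlK (K.inv_mem (h0 _))
    have h2 := all_tr (M := K) (g := ⟨0, c⟩) rfl
      (fun m hm => K.mul_mem (K.mul_mem (h0 c) hm) (K.inv_mem (h0 c))) hl h1
    rw [eq_top_iff]
    rintro g -
    rw [decomp g]
    exact K.mul_mem (h2 _) (h0 _)

lemma isPrim_G : IsPrim G := by
  refine ⟨H, coatom_H, ?_⟩
  by_contra hne
  have h1 := H.normalCore_le (tr_mem_of_normal hne (1, 0, 0, 0))
  have h2 : ((1, 0, 0, 0) : V) = 0 := h1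
  exact absurd h2 (by decide)

lemma isSchunck_XX : IsSchunck XX where
  soluble := fun _ _ h => ⟨h.1, h.2.1⟩
  iso := fun _ _ _ _ ⟨e⟩ h => XX_surj _ _ e.toMonoidHom e.surjective h
  quot := fun _ _ N _ h => XX_surj _ _ (QuotientGroup.mk' N) (QuotientGroup.mk'_surjective N) h
  prim := by
    intro R _ _ hs hall
    have key : ∀ (P : Type) [Group P], IsPrim P → (∀ R : Type, ∀ [Group R], XX R →
        ∀ f : R →* P, ¬ Surjective f) → ∀ f : R →* P, ¬ Surjective f := by
      intro P _ hQ hR f hf
      let e := QuotientGroup.quotientKerEquivOfSurjective f hf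
      have h1 : IsPrim (R ⧸ f.ker) := isPrim_transport e.symm hQ
      have h2 := hall f.ker h1
      exact hR _ h2 e.toMonoidHom e.surjective
    refine ⟨inferInstance, hs, ?_, ?_, ?_, ?_⟩
    · exact key _ (isPrim_zmod 3) (fun R _ h => h.2.2.1)
    · exact key _ (isPrim_zmod 5) (fun R _ h => h.2.2.2.1)
    · exact key _ isPrim_D (fun R _ h => h.2.2.2.2.1)
    · exact key _ isPrim_G (fun R _ h => h.2.2.2.2.2)

/-- an `X`-group mapping into `D` has an image that does not contain `c` -/
lemma not_c_range {N : Type} [Group N] (hN : XX N) (g : N →* Q) (hD : ∀ n, g n ∈ D) :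
    c ∉ g.range := by
  intro hc
  by_cases h : ∀ n, (g n).b = 0
  · let f : N →* Multiplicative (ZMod 5) :=
      { toFun := fun n => Multiplicative.ofAdd (g n).a
        map_one' := by rw [map_one]; rfl
        map_mul' := by
          intro x y
          rw [map_mul]
          change Multiplicative.ofAdd ((g x).a + ee (g x).b * (g y).a) = _
          rw [h x, show ee 0 = 1 from rfl, one_mul]; rfl }
    apply hN.2.2.2.1 f
    obtain ⟨n, hn⟩ := hc
    have h1 : f n = Multiplicative.ofAdd 1 := by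
      change Multiplicative.ofAdd (g n).a = _
      rw [hn]; rfl
    intro z
    refine ⟨n ^ (Multiplicative.toAdd z).val, ?_⟩
    rw [map_pow, h1]
    revert z; decide +kernel
  · push Not at h
    obtain ⟨n, hn⟩ := h
    apply hN.2.2.2.2.1 (g.codRestrict D hD)
    intro z
    obtain ⟨m, hm⟩ := hc
    obtain ⟨i, -, k, -, hz⟩ := gen_two (g n) (hD n) hn (z : Q) z.2
    refine ⟨m ^ i * n ^ k, Subtype.ext ?_⟩
    change g (m ^ i * n ^ k) = z
    rw [map_mul, map_pow, map_pow, hm, hz]

lemma XX_of_card {R : Type} [Group R] [Finite R] (hs : Group.IsSolvable R)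
    (h3 : ¬ 3 ∣ Nat.card R) (h5 : ¬ 5 ∣ Nat.card R) : XX R := by
  have key : ∀ (P : Type) [Group P], (3 ∣ Nat.card P ∨ 5 ∣ Nat.card P) →
      ∀ f : R →* P, ¬ Surjective f := by
    intro P _ hQ f hf
    rcases hQ with hQ | hQ
    · exact h3 (hQ.trans (Subgroup.card_dvd_of_surjective f hf))
    · exact h5 (hQ.trans (Subgroup.card_dvd_of_surjective f hf))
  refine ⟨inferInstance, hs, key _ ?_, key _ ?_, key _ ?_, key _ ?_⟩
  · left; simp [Nat.card_eq_fintype_card]
  · right; simp [Nat.card_eq_fintype_card]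
  · right
    have h1 : orderOf (⟨c, c_mem_D⟩ : D) = 5 := by
      apply orderOf_eq_prime
      · apply Subtype.ext; decide
      · intro h
        have := congrArg Subtype.val h
        exact absurd this (by decide)
    rw [← h1]; exact orderOf_dvd_natCard _
  · right; rw [card_G]; norm_num

lemma XX_ext {R : Type} [Group R] (h : prodClass XX XX R) : XX R := by
  obtain ⟨h1, h2, N, hNn, hN, hQ⟩ := h
  have s3 := simple_zmod 3
  have s5 := simple_zmod 5
  refine ⟨h1, h2, ?_, ?_, ?_, ?_⟩
  · intro f hf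
    obtain ⟨g, hg⟩ := descend N f hf (simple_map f hf N hN.2.2.1)
    exact hQ.2.2.1 g hg
  · intro f hf
    obtain ⟨g, hg⟩ := descend N f hf (simple_map f hf N hN.2.2.2.1)
    exact hQ.2.2.2.1 g hg
  · intro f hf
    have h3 : N.map f = ⊥ := by
      rw [eq_bot_iff]
      rintro _ ⟨n, hn, rfl⟩
      by_contra hne
      have h4 : ((f n : D) : Q) ≠ 1 := fun h => hne (Subgroup.mem_bot.mpr (Subtype.ext h))
      apply not_c_range hN (D.subtype.comp (f.comp N.subtype)) (fun n => (f n).2)
      refine c_mem (M := (D.subtype.comp (f.comp N.subtype)).range) (q := f n) ?_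
        ⟨⟨n, hn⟩, rfl⟩ h4
      rintro _ ⟨y, rfl⟩
      obtain ⟨x, hx⟩ := hf ⟨c, c_mem_D⟩
      refine ⟨⟨x * y * x⁻¹, hNn.conj_mem _ y.2 x⟩, ?_⟩
      change ((f (x * y * x⁻¹) : D) : Q) = _
      rw [map_mul, map_mul, map_inv, hx]; rfl
    obtain ⟨g, hg⟩ := descend N f hf h3
    exact hQ.2.2.2.2.1 g hg
  · intro f hf
    have h3 : N.map f = ⊥ := by
      by_contra hne
      have hnn : (N.map f).Normal := hNn.map f hf
      have hV := tr_mem_of_normal hne
      let g : N →* Q := pr.comp (f.comp N.subtype)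
      have hg : ∀ n : N, g n = (f n).q := fun _ => rfl
      by_cases ha : ∀ n, g n = 1
      · let f3 : N →* Multiplicative (ZMod 3) :=
          { toFun := fun n => Multiplicative.ofAdd (f n).v.1
            map_one' := by
              change Multiplicative.ofAdd (f 1).v.1 = 1
              rw [map_one]; rfl
            map_mul' := by
              intro a b
              change Multiplicative.ofAdd (f (a * b)).v.1 = _
              have h4 : (f a).q = 1 := ha a
              rw [map_mul, mul_v, h4, act_one]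
              rfl }
        apply hN.2.2.1 f3
        intro z
        obtain ⟨n, hn, hn2⟩ := hV (Multiplicative.toAdd z, 0, 0, 0)
        refine ⟨⟨n, hn⟩, ?_⟩
        change Multiplicative.ofAdd (f n).v.1 = z
        rw [hn2]; rfl
      · push Not at ha
        obtain ⟨n, hn⟩ := ha
        have hc : c ∈ g.range := by
          refine c_mem (M := g.range) (q := g n) ?_ ⟨n, rfl⟩ hn
          rintro _ ⟨y, rfl⟩
          obtain ⟨x, hx⟩ := hf ⟨0, c⟩
          refine ⟨⟨x * y * x⁻¹, hNn.conj_mem _ y.2 x⟩, ?_⟩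
          change (f (x * y * x⁻¹)).q = _
          rw [map_mul, map_mul, map_inv, hx]; rfl
        by_cases hD : ∀ n, g n ∈ D
        · exact not_c_range hN g hD hc
        · push Not at hD
          obtain ⟨m, hm⟩ := hD
          obtain ⟨k, hk⟩ := hc
          apply hN.2.2.2.2.2 (f.comp N.subtype)
          intro z
          obtain ⟨i, -, j, -, hz⟩ := gen_odd (g m) hm z.q
          have h5 : (f ((k : R) ^ i * (m : R) ^ j)).q = z.q := by
            rw [hz, ← hk, hg, hg, ← pr_apply, map_mul, map_pow, map_pow, map_mul, map_pow, map_pow]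
            rfl
          have h6 : (z * (f ((k : R) ^ i * (m : R) ^ j))⁻¹).q = 1 := by
            rw [mul_q, inv_q, h5, mul_inv_cancel]
          obtain ⟨u, hu, hu2⟩ := hV (z * (f ((k : R) ^ i * (m : R) ^ j))⁻¹).v
          rw [← eq_tr h6] at hu2
          refine ⟨⟨u, hu⟩ * (k ^ i * m ^ j), ?_⟩
          change f (u * ((k : R) ^ i * (m : R) ^ j)) = z
          rw [map_mul, hu2]; group
    obtain ⟨g, hg⟩ := descend N f hf h3
    exact hQ.2.2.2.2.2 g hg

lemma idem_XX : IsIdem XX := by
  intro R _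
  constructor
  · exact XX_ext
  · intro h
    refine ⟨h.1, h.2.1, ⊥, inferInstance, ?_, ?_⟩
    · apply XX_of_card
      · infer_instance
      · rw [Nat.card_unique]; norm_num
      · rw [Nat.card_unique]; norm_num
    · exact XX_surj _ _ (QuotientGroup.mk' ⊥) (QuotientGroup.mk'_surjective ⊥) h

end Pool.Agent.H510Z.Schunck
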