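import Mathlib

set_option autoImplicit false

namespace Pool.Agent.H510Z.Schunck

/-- A class of groups: a predicate on (small) groups. -/
abbrev GroupClass := (G : Type) → [Group G] → Prop

/-- A group is primitive if it has a maximal subgroup with trivial core. -/
def IsPrim (G : Type) [Group G] : Prop := ∃ M : Subgroup G, IsCoatom M ∧ M.normalCore = ⊥

/-- `X` is a Schunck class of finite soluble groups: it consists of finite soluble groups, is closed
under isomorphism and epimorphic images, and contains every finite soluble group all of whose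
primitive epimorphic images lie in `X`. -/
structure IsSchunck (X : GroupClass) : Prop where
  soluble : ∀ (G : Type) [Group G], X G → Finite G ∧ Group.IsSolvable G
  iso : ∀ (G H : Type) [Group G] [Group H], Nonempty (G ≃* H) → X G → X H
  quot : ∀ (G : Type) [Group G] (N : Subgroup G) [N.Normal], X G → X (G ⧸ N)
  prim : ∀ (G : Type) [Group G] [Finite G], Group.IsSolvable G →
    (∀ (N : Subgroup G) [N.Normal], IsPrim (G ⧸ N) → X (G ⧸ N)) → X G

/-- The class product `XY`: finite soluble groups `G` with a normal subgroup `N` in `X` such that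
`G/N` is in `Y`. -/
def prodClass (X Y : GroupClass) : GroupClass := fun G _ =>
  Finite G ∧ Group.IsSolvable G ∧ ∃ (N : Subgroup G) (_ : N.Normal), X N ∧ Y (G ⧸ N)

/-- `X² = X`. -/
def IsIdem (X : GroupClass) : Prop := ∀ (G : Type) [Group G], prodClass X X G ↔ X G

/-- `H` is a maximal `X`-subgroup of `G`. -/
def IsMaxSub (X : GroupClass) {G : Type} [Group G] (H : Subgroup G) : Prop :=
  X H ∧ ∀ K : Subgroup G, H ≤ K → X K → K = H

/-- `H` is an `X`-projector of `G`: for every normal subgroup `N` of `G` the image `HN/N` is a
maximal `X`-subgroup of `G/N`. -/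
def IsProj (X : GroupClass) {G : Type} [Group G] (H : Subgroup G) : Prop :=
  ∀ (N : Subgroup G) [N.Normal], IsMaxSub X (H.map (QuotientGroup.mk' N))

/-- The join `X ∨ Y = ⟨X, Y⟩` of the lattice `L`: the finite soluble groups `G` that are generated
by `S` and `T` whenever `S` is an `X`-projector and `T` is a `Y`-projector of `G`. -/
def join (X Y : GroupClass) : GroupClass := fun G _ =>
  Finite G ∧ Group.IsSolvable G ∧ ∀ S T : Subgroup G, IsProj X S → IsProj Y T → S ⊔ T = ⊤

end Pool.Agent.H510Z.Schunck
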