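import Pool.Agent.H510Z.Schunck.Defs

set_option autoImplicit false

namespace Pool.Agent.H510Z.Schunck

/-! ### The Frobenius group of order 20 -/

/-- affine maps of the field with five elements -/
@[ext] structure Q where
  a : ZMod 5
  b : ZMod 4
deriving DecidableEq, Fintype

/-- the multiplier -/
def ee (b : ZMod 4) : ZMod 5 := 2 ^ b.val

instance : Mul Q := ⟨fun x y => ⟨x.a + ee x.b * y.a, x.b + y.b⟩⟩
instance : One Q := ⟨⟨0, 0⟩⟩
instance : Inv Q := ⟨fun x => ⟨-(ee (-x.b) * x.a), -x.b⟩⟩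

instance : Group Q := Group.ofLeftAxioms (by decide +kernel) (by decide +kernel) (by decide +kernel)

lemma Q.mul_b (x y : Q) : (x * y).b = x.b + y.b := rfl
lemma Q.inv_b (x : Q) : (x⁻¹).b = -x.b := rfl
lemma Q.one_b : (1 : Q).b = 0 := rfl

/-- translation -/
def c : Q := ⟨1, 0⟩
/-- dilation -/
def t : Q := ⟨0, 1⟩

/-- the dihedral subgroup of order ten -/
def D : Subgroup Q where
  carrier := {q | 2 * q.b = 0}
  mul_mem' := by
    intro x y hx hy
    change 2 * (x.b + y.b) = 0
    rw [mul_add, show 2 * x.b = 0 from hx, show 2 * y.b = 0 from hy, add_zero]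
  one_mem' := by decide
  inv_mem' := by
    intro x hx
    change 2 * (-x.b) = 0
    rw [mul_neg, show 2 * x.b = 0 from hx, neg_zero]

lemma mem_D {q : Q} : q ∈ D ↔ 2 * q.b = 0 := Iff.rfl

instance : DecidablePred (· ∈ D) := fun q => inferInstanceAs (Decidable (2 * q.b = 0))

/-- the map onto the cyclic group of order four -/
def bHom : Q →* Multiplicative (ZMod 4) where
  toFun q := Multiplicative.ofAdd q.b
  map_one' := rfl
  map_mul' _ _ := rfl

/-- the translations -/
def aHom : Multiplicative (ZMod 5) →* Q where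
  toFun a := ⟨Multiplicative.toAdd a, 0⟩
  map_one' := rfl
  map_mul' := by decide +kernel

instance : Group.IsSolvable Q := by
  apply Group.isSolvable_of_ker_le_range aHom bHom
  intro x hx
  rw [MonoidHom.mem_ker] at hx
  refine ⟨Multiplicative.ofAdd x.a, ?_⟩
  ext1
  · rfl
  · exact (show x.b = 0 from hx).symm

lemma card_Q : Nat.card Q = 20 := by
  rw [Nat.card_eq_fintype_card]; decide +kernel

lemma c_of_ne (q : Q) (hq : q ≠ 1) :
    ∃ k ∈ Finset.range 5, q ^ k = c ∨ (c * q * c⁻¹ * q⁻¹) ^ k = c := by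
  revert q; decide +kernel

lemma c_mem {M : Subgroup Q} (hn : ∀ q ∈ M, c * q * c⁻¹ ∈ M) {q : Q} (hq : q ∈ M) (h1 : q ≠ 1) :
    c ∈ M := by
  obtain ⟨k, -, h | h⟩ := c_of_ne q h1
  · rw [← h]; exact M.pow_mem hq k
  · rw [← h]; exact M.pow_mem (M.mul_mem (hn q hq) (M.inv_mem hq)) k

lemma gen_odd (q : Q) (hq : 2 * q.b ≠ 0) (z : Q) :
    ∃ i ∈ Finset.range 5, ∃ k ∈ Finset.range 4, z = c ^ i * q ^ k := by
  revert q z; decide +kernel

lemma gen_two (q : Q) (hq : 2 * q.b = 0) (hq2 : q.b ≠ 0) (z : Q) (hz : 2 * z.b = 0) :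
    ∃ i ∈ Finset.range 5, ∃ k ∈ Finset.range 2, z = c ^ i * q ^ k := by
  revert q z; decide +kernel

lemma c_of_trans (q : Q) (hq : q.b = 0) (h1 : q ≠ 1) : ∃ k ∈ Finset.range 5, q ^ k = c := by
  revert q; decide +kernel

lemma cube_Q (q : Q) (h : q ^ 3 = 1) : q = 1 := by
  revert q; decide +kernel

/-! ### The module -/

/-- vectors of sum zero in the permutation module over the field with three elements -/
abbrev V := ZMod 3 × ZMod 3 × ZMod 3 × ZMod 3

/-- the shift -/
def sig (v : V) : V := (-v.1 - v.2.1 - v.2.2.1 - v.2.2.2, v.1, v.2.1, v.2.2.1)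
/-- the dilation -/
def tau (v : V) : V := (v.1, v.2.2.2, v.2.1, -v.1 - v.2.1 - v.2.2.1 - v.2.2.2)

lemma sig_add (v w : V) : sig (v + w) = sig v + sig w := by
  simp only [sig, Prod.fst_add, Prod.snd_add, Prod.mk_add_mk, Prod.mk.injEq, and_true]
  ring

lemma tau_add (v w : V) : tau (v + w) = tau v + tau w := by
  simp only [tau, Prod.fst_add, Prod.snd_add, Prod.mk_add_mk, Prod.mk.injEq, true_and]
  ring

lemma iter_add (f : V → V) (hf : ∀ v w, f (v + w) = f v + f w) (n : ℕ) (v w : V) :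
    f^[n] (v + w) = f^[n] v + f^[n] w := by
  induction n generalizing v w with
  | zero => rfl
  | succ n ih => rw [Function.iterate_succ_apply, hf, ih]; rfl

/-- the action -/
def act (q : Q) (v : V) : V := sig^[q.a.val] (tau^[q.b.val] v)

lemma act_add (q : Q) (v w : V) : act q (v + w) = act q v + act q w := by
  unfold act
  rw [iter_add tau tau_add, iter_add sig sig_add]

lemma act_zero (q : Q) : act q 0 = 0 := by
  revert q; decide +kernel

lemma act_one (v : V) : act 1 v = v := rfl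

lemma basis_V (v : V) : v = v.1.val • ((1, 0, 0, 0) : V) + v.2.1.val • ((0, 1, 0, 0) : V)
    + v.2.2.1.val • ((0, 0, 1, 0) : V) + v.2.2.2.val • ((0, 0, 0, 1) : V) := by
  revert v; decide +kernel

lemma act_nsmul (q : Q) (n : ℕ) (v : V) : act q (n • v) = n • act q v := by
  induction n with
  | zero => simp [act_zero]
  | succ n ih => rw [succ_nsmul, act_add, ih, succ_nsmul]

lemma act_mul_basis (p q : Q) : act (p * q) (1, 0, 0, 0) = act p (act q (1, 0, 0, 0)) ∧
    act (p * q) (0, 1, 0, 0) = act p (act q (0, 1, 0, 0)) ∧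
    act (p * q) (0, 0, 1, 0) = act p (act q (0, 0, 1, 0)) ∧
    act (p * q) (0, 0, 0, 1) = act p (act q (0, 0, 0, 1)) := by
  revert p q; decide +kernel

lemma act_mul (p q : Q) (v : V) : act (p * q) v = act p (act q v) := by
  obtain ⟨h1, h2, h3, h4⟩ := act_mul_basis p q
  rw [basis_V v]
  simp only [act_add, act_nsmul, h1, h2, h3, h4]

lemma act_neg (q : Q) (v : V) : act q (-v) = -act q v := by
  have h : act q (-v) + act q v = 0 := by rw [← act_add, neg_add_cancel, act_zero]
  exact eq_neg_of_add_eq_zero_left h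

/-- The group of order 1620. -/
@[ext] structure G where
  v : V
  q : Q

instance : Mul G := ⟨fun a b => ⟨a.v + act a.q b.v, a.q * b.q⟩⟩
instance : One G := ⟨⟨0, 1⟩⟩
instance : Inv G := ⟨fun a => ⟨-(act a.q⁻¹ a.v), a.q⁻¹⟩⟩

@[simp] lemma mul_v (a b : G) : (a * b).v = a.v + act a.q b.v := rfl
@[simp] lemma mul_q (a b : G) : (a * b).q = a.q * b.q := rfl
@[simp] lemma one_v : (1 : G).v = 0 := rfl
@[simp] lemma one_q : (1 : G).q = 1 := rfl
@[simp] lemma inv_v (a : G) : (a⁻¹).v = -(act a.q⁻¹ a.v) := rfl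
@[simp] lemma inv_q (a : G) : (a⁻¹).q = a.q⁻¹ := rfl

instance : Group G := Group.ofLeftAxioms
  (by
    intro a b c
    ext1
    · simp only [mul_v, mul_q, act_add, act_mul, add_assoc]
    · simp only [mul_q, mul_assoc])
  (by
    intro a
    ext1
    · simp only [mul_v, one_v, one_q, act_one, zero_add]
    · simp only [mul_q, one_q, one_mul])
  (by
    intro a
    ext1
    · simp only [mul_v, inv_v, inv_q, one_v, neg_add_cancel]
    · simp only [mul_q, inv_q, one_q, inv_mul_cancel])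

/-- forget the group structure -/
def gEquiv : G ≃ V × Q where
  toFun g := (g.v, g.q)
  invFun p := ⟨p.1, p.2⟩
  left_inv _ := rfl
  right_inv _ := rfl

instance : Finite G := Finite.of_equiv _ gEquiv.symm

lemma card_G : Nat.card G = 1620 := by
  rw [Nat.card_congr gEquiv, Nat.card_prod, card_Q]
  simp [Nat.card_prod]

/-- the projection -/
def pr : G →* Q where
  toFun g := g.q
  map_one' := rfl
  map_mul' _ _ := rfl

lemma pr_apply (g : G) : pr g = g.q := rfl

/-- translations -/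
def tr (v : V) : G := ⟨v, 1⟩

/-- the inclusion of the module -/
def trHom : Multiplicative V →* G where
  toFun v := ⟨Multiplicative.toAdd v, 1⟩
  map_one' := rfl
  map_mul' a b := by
    ext1
    · simp only [toAdd_mul, mul_v, act_one]
    · simp only [mul_q, mul_one]

instance : Group.IsSolvable G := by
  apply Group.isSolvable_of_ker_le_range trHom pr
  intro x hx
  rw [MonoidHom.mem_ker] at hx
  exact ⟨Multiplicative.ofAdd x.v, by
    ext1
    · rfl
    · exact hx.symm⟩

lemma tr_mul (v w : V) : tr v * tr w = tr (v + w) := by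
  ext1
  · simp [tr, act_one]
  · simp [tr]

lemma tr_zero : tr 0 = 1 := rfl

lemma tr_pow (v : V) (n : ℕ) : (tr v) ^ n = tr (n • v) := by
  induction n with
  | zero => rw [pow_zero, zero_smul]; rfl
  | succ n ih => rw [pow_succ, ih, tr_mul, succ_nsmul]

lemma conj_tr (g : G) (v : V) : g * tr v * g⁻¹ = tr (act g.q v) := by
  ext1
  · simp only [tr, mul_v, mul_q, inv_v, mul_one, act_neg]
    rw [← act_mul, mul_inv_cancel, act_one]
    abel
  · simp [tr]

lemma eq_tr {g : G} (h : g.q = 1) : g = tr g.v := by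
  ext1
  · rfl
  · exact h

lemma decomp (g : G) : g = tr g.v * ⟨0, g.q⟩ := by
  ext1
  · simp [tr, act_zero]
  · simp [tr]

lemma span1 (v : V) (hv : v ≠ 0) : ∃ x : V, ((1, 2, 0, 0) : V) = x.1.val • v + x.2.1.val • sig v
    + x.2.2.1.val • sig (sig v) + x.2.2.2.val • sig (sig (sig v)) := by
  revert v; decide +kernel

lemma span2 (w : V) : ∃ x : V, w = x.1.val • ((1, 2, 0, 0) : V) + x.2.1.val • sig (1, 2, 0, 0)
    + x.2.2.1.val • sig (sig (1, 2, 0, 0)) + x.2.2.2.val • sig (sig (sig (1, 2, 0, 0))) := by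
  revert w; decide +kernel

lemma act_c (v : V) : act c v = sig v := rfl

/-- irreducibility under the translations -/
lemma all_tr {M : Subgroup G} {g : G} (hg : g.q = c) (hn : ∀ m ∈ M, g * m * g⁻¹ ∈ M) {v : V}
    (hv : v ≠ 0) (hvM : tr v ∈ M) (w : V) : tr w ∈ M := by
  have hs : ∀ u, tr u ∈ M → tr (sig u) ∈ M := by
    intro u hu
    have := hn _ hu
    rwa [conj_tr, hg, act_c] at this
  have comb : ∀ (u x : V), tr u ∈ M → tr (x.1.val • u + x.2.1.val • sig u
      + x.2.2.1.val • sig (sig u) + x.2.2.2.val • sig (sig (sig u))) ∈ M := by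
    intro u x hu
    rw [← tr_mul, ← tr_mul, ← tr_mul, ← tr_pow, ← tr_pow, ← tr_pow, ← tr_pow]
    exact M.mul_mem (M.mul_mem (M.mul_mem (M.pow_mem hu _) (M.pow_mem (hs _ hu) _))
      (M.pow_mem (hs _ (hs _ hu)) _)) (M.pow_mem (hs _ (hs _ (hs _ hu))) _)
  obtain ⟨x, hx⟩ := span1 v hv
  have h1 : tr (1, 2, 0, 0) ∈ M := by rw [hx]; exact comb v x hvM
  obtain ⟨y, hy⟩ := span2 w
  rw [hy]; exact comb _ y h1

lemma moves (q : Q) (hq : q ≠ 1) : ∃ v : V, act q v - v ≠ 0 := by
  revert q; decide +kernel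

lemma neg_vec (q : Q) (hq : 2 * q.b = 0) (hq2 : q.b ≠ 0) : ∃ w : V, w ≠ 0 ∧ act q w = -w := by
  revert q; decide +kernel

lemma three_V (v : V) : 3 • v = 0 := by
  revert v; decide +kernel

/-- a nontrivial normal subgroup contains the module -/
lemma tr_mem_of_normal {M : Subgroup G} (hM : M ≠ ⊥) [hn : M.Normal] (w : V) : tr w ∈ M := by
  have h1 : ∃ v : V, v ≠ 0 ∧ tr v ∈ M := by
    obtain ⟨n, hnM, hn1⟩ := M.bot_or_exists_ne_one.resolve_left hM
    by_cases hq : n.q = 1
    · refine ⟨n.v, ?_, ?_⟩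
      · intro h0
        apply hn1
        rw [eq_tr hq, h0, tr_zero]
      · rw [← eq_tr hq]; exact hnM
    · obtain ⟨v, hv⟩ := moves n.q hq
      refine ⟨act n.q v - v, hv, ?_⟩
      have h2 : n * (tr v * n⁻¹ * (tr v)⁻¹) ∈ M :=
        M.mul_mem hnM (hn.conj_mem _ (M.inv_mem hnM) _)
      have h3 : n * (tr v * n⁻¹ * (tr v)⁻¹) = tr (act n.q v - v) := by
        have e1 : (tr v)⁻¹ = tr (-v) := by
          rw [inv_eq_iff_mul_eq_one, tr_mul, add_neg_cancel, tr_zero]
        calc n * (tr v * n⁻¹ * (tr v)⁻¹) = (n * tr v * n⁻¹) * (tr v)⁻¹ := by group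
          _ = _ := by rw [conj_tr, e1, tr_mul, sub_eq_add_neg]
      rw [← h3]; exact h2
  obtain ⟨v, hv, hvM⟩ := h1
  exact all_tr (g := ⟨0, c⟩) rfl (fun m hm => hn.conj_mem m hm _) hv hvM w

end Pool.Agent.H510Z.Schunck
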