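import Pool.Agent.H510Z.Schunck.Cls

set_option autoImplicit false

namespace Pool.Agent.H510Z.Schunck

open Function

lemma odd_triv {P : Type} [CommGroup P] (hP : ∀ z : P, z * z = 1 → z = 1) {R : Type} [Group R]
    (f : R →* P) {s w : R} (hs : s * s = 1) (hw : s * w * s⁻¹ = w⁻¹) : f s = 1 ∧ f w = 1 := by
  have h1 : f s = 1 := hP _ (by rw [← map_mul, hs, map_one])
  refine ⟨h1, hP _ ?_⟩
  have h2 := congrArg f hw
  rw [map_mul, map_mul, map_inv, map_inv, h1, one_mul, inv_one, mul_one] at h2
  nth_rewrite 1 [h2]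
  exact inv_mul_cancel _

lemma sq3 (z : Multiplicative (ZMod 3)) (h : z * z = 1) : z = 1 := by
  revert z; decide +kernel

lemma sq5 (z : Multiplicative (ZMod 5)) (h : z * z = 1) : z = 1 := by
  revert z; decide +kernel

/-- a group generated like the symmetric group of degree three lies in `X` -/
lemma XX_S3 {R : Type} [Group R] [Finite R] (hR : Group.IsSolvable R) (s w : R) (hs : s * s = 1)
    (hw3 : w ^ 3 = 1) (hw : s * w * s⁻¹ = w⁻¹) (hgen : Subgroup.closure {s, w} = ⊤) : XX R := by
  have key : ∀ (P : Type) [Group P] (f : R →* P), f w = 1 → ∀ x, f x = 1 ∨ f x = f s := by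
    intro P _ f hf x
    have hx : x ∈ Subgroup.closure {s, w} := by rw [hgen]; trivial
    have hss : f s * f s = 1 := by rw [← map_mul, hs, map_one]
    induction hx using Subgroup.closure_induction with
    | mem y hy =>
      rcases hy with rfl | rfl
      · right; rfl
      · left; exact hf
    | one => left; exact map_one f
    | mul y z _ _ hy hz =>
      rw [map_mul]
      rcases hy with hy | hy <;> rcases hz with hz | hz <;> rw [hy, hz]
      · left; exact one_mul _
      · right; exact one_mul _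
      · right; exact mul_one _
      · left; exact hss
    | inv y _ hy =>
      rw [map_inv]
      rcases hy with hy | hy <;> rw [hy]
      · left; exact inv_one
      · right; exact inv_eq_of_mul_eq_one_right hss
  have keyQ : ∀ g : R →* Q, ¬ (c ∈ g.range) := by
    rintro g ⟨x, hx⟩
    have h1 : g w = 1 := cube_Q _ (by rw [← map_pow, hw3, map_one])
    have h2 := key Q g h1 x
    have h3 := key Q g h1 (x * x)
    rw [map_mul, hx] at h3
    rw [hx] at h2
    rcases h2 with h2 | h2
    · exact absurd h2 (by decide)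
    · rcases h3 with h3 | h3
      · exact absurd h3 (by decide)
      · rw [← h2] at h3; exact absurd h3 (by decide)
  refine ⟨inferInstance, hR, ?_, ?_, ?_, ?_⟩
  · intro f hf
    obtain ⟨h1, h2⟩ := odd_triv sq3 f hs hw
    obtain ⟨x, hx⟩ := hf (Multiplicative.ofAdd 1)
    have h3 := key _ f h2 x
    rw [h1, or_self, hx] at h3
    exact absurd h3 (by decide)
  · intro f hf
    obtain ⟨h1, h2⟩ := odd_triv sq5 f hs hw
    obtain ⟨x, hx⟩ := hf (Multiplicative.ofAdd 1)
    have h3 := key _ f h2 x
    rw [h1, or_self, hx] at h3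
    exact absurd h3 (by decide)
  · intro f hf
    apply keyQ (D.subtype.comp f)
    obtain ⟨x, hx⟩ := hf ⟨c, c_mem_D⟩
    exact ⟨x, by rw [MonoidHom.comp_apply, hx]; rfl⟩
  · intro f hf
    apply keyQ (pr.comp f)
    obtain ⟨x, hx⟩ := hf ⟨0, c⟩
    exact ⟨x, by rw [MonoidHom.comp_apply, hx]; rfl⟩

lemma XX_Q : XX Q := by
  refine ⟨inferInstance, inferInstance, ?_, ?_, ?_, ?_⟩
  · intro f hf
    have := Subgroup.card_dvd_of_surjective f hf
    rw [card_Q] at this
    simp [Nat.card_eq_fintype_card] at this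
  · intro f hf
    have h1 : f t = 1 := by
      have : f t ^ 4 = 1 := by rw [← map_pow, show t ^ 4 = 1 by decide, map_one]
      revert this
      generalize f t = z
      revert z; decide +kernel
    have h2 : f c = 1 := by
      have h3 := congrArg f (show t * c = c * c * t by decide)
      rw [map_mul, map_mul, map_mul, h1, one_mul, mul_one] at h3
      simpa using h3
    obtain ⟨x, hx⟩ := hf (Multiplicative.ofAdd 1)
    obtain ⟨i, -, k, -, h⟩ := gen_odd t (by decide) x
    rw [h, map_mul, map_pow, map_pow, h1, h2, one_pow, one_pow, one_mul] at hx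
    exact absurd hx (by decide)
  · intro f hf
    have h1 : ¬ Injective f := by
      intro hi
      have h2 : Nat.card Q = Nat.card D := Nat.card_eq_of_bijective f ⟨hi, hf⟩
      have h3 : D = ⊤ := Subgroup.eq_top_of_card_eq D h2.symm
      have h4 : t ∈ D := by rw [h3]; trivial
      exact absurd h4 (by decide)
    rw [← MonoidHom.ker_eq_bot_iff] at h1
    obtain ⟨q, hq, hq1⟩ := f.ker.bot_or_exists_ne_one.resolve_left h1
    have h2 : c ∈ f.ker :=
      c_mem (fun q hq => (inferInstance : f.ker.Normal).conj_mem q hq c) hq hq1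
    rw [MonoidHom.mem_ker] at h2
    have h3 : ∀ x y : D, x * y = y * x := by
      intro x y
      obtain ⟨a, rfl⟩ := hf x
      obtain ⟨b, rfl⟩ := hf y
      obtain ⟨i, -, k, -, ha⟩ := gen_odd t (by decide) a
      obtain ⟨j, -, l, -, hb⟩ := gen_odd t (by decide) b
      rw [ha, hb]
      simp only [map_mul, map_pow, h2, one_pow, one_mul]
      rw [← pow_add, ← pow_add, add_comm]
    have h4 := congrArg Subtype.val (h3 ⟨c, c_mem_D⟩ ⟨t ^ 2, by decide⟩)
    exact absurd h4 (by decide)
  · intro f hf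
    have := Subgroup.card_dvd_of_surjective f hf
    rw [card_Q, card_G] at this
    norm_num at this

/-- the section -/
def sec : Q →* G where
  toFun q := ⟨0, q⟩
  map_one' := rfl
  map_mul' a b := by
    ext1
    · simp [act_zero]
    · rfl

lemma XX_H : XX H := by
  apply XX_surj Q H (sec.codRestrict H (fun _ => rfl)) _ XX_Q
  rintro ⟨g, hg⟩
  refine ⟨g.q, Subtype.ext ?_⟩
  ext1
  · exact (show g.v = 0 from hg).symm
  · rfl

lemma proj_H : IsProj XX H := by
  intro N hN
  constructor
  · obtain ⟨g, hg⟩ := surj_map (QuotientGroup.mk' N) H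
    exact XX_surj _ _ g hg XX_H
  · intro K hK hXK
    have hs := QuotientGroup.mk'_surjective N
    have h1 : H ≤ K.comap (QuotientGroup.mk' N) := Subgroup.map_le_iff_le_comap.mp hK
    rcases h1.eq_or_lt with h2 | h2
    · rw [h2, Subgroup.map_comap_eq_self_of_surjective hs]
    · have h3 := coatom_H.2 _ h2
      have h4 : K = ⊤ := by
        rw [← Subgroup.map_comap_eq_self_of_surjective hs K, h3]
        exact Subgroup.map_top_of_surjective _ hs
      by_cases hb : N = ⊥
      · exfalso
        subst hb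
        subst h4
        let e : (⊤ : Subgroup (G ⧸ (⊥ : Subgroup G))) ≃* G :=
          Subgroup.topEquiv.trans QuotientGroup.quotientBot
        exact hXK.2.2.2.2.2 e.toMonoidHom e.surjective
      · rw [h4]
        symm
        rw [eq_top_iff]
        rintro x -
        obtain ⟨g, rfl⟩ := hs x
        refine ⟨⟨0, g.q⟩, rfl, ?_⟩
        have h5 : QuotientGroup.mk' N (tr g.v) = 1 :=
          (QuotientGroup.eq_one_iff _).mpr (tr_mem_of_normal hb _)
        conv_rhs => rw [decomp g, map_mul, h5, one_mul]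

lemma sylow_proj {R : Type} [Group R] [Finite R] (hR : Group.IsSolvable R) (P : Sylow 5 R) :
    IsProj YY (P : Subgroup R) := by
  intro N hN
  let P' := P.mapSurjective (QuotientGroup.mk'_surjective N)
  constructor
  · exact ⟨inferInstance, inferInstance, P'.isPGroup'⟩
  · intro K hK hYK
    exact P'.is_maximal' hYK.2.2 hK

lemma not_join_G : ¬ join XX YY G := by
  rintro ⟨-, -, h⟩
  have h1 : orderOf (sec c) = 5 := by
    apply orderOf_eq_prime
    · rw [← map_pow, show c ^ 5 = 1 by decide, map_one]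
    · intro h
      have := congrArg G.q h
      exact absurd this (by decide)
  have h2 : Nat.card (Subgroup.zpowers (sec c)) = 5 ^ (Nat.card G).factorization 5 := by
    rw [Nat.card_zpowers, h1, card_G]
    have : (1620 : ℕ).factorization 5 = 1 := by
      have h5 : Nat.Prime 5 := by norm_num
      rw [Nat.factorization_def _ h5, show (1620 : ℕ) = 5 * 324 by norm_num,
        padicValNat.mul (by norm_num) (by norm_num), padicValNat_self,
        padicValNat.eq_zero_of_not_dvd (by norm_num)]
    rw [this, pow_one]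
  let P : Sylow 5 G := Sylow.ofCard _ h2
  have h3 := h H P proj_H (sylow_proj inferInstance P)
  have h4 : (P : Subgroup G) ≤ H := by
    change Subgroup.zpowers (sec c) ≤ H
    rw [Subgroup.zpowers_le]
    rfl
  rw [sup_eq_left.mpr h4] at h3
  exact coatom_H.1 h3

/-- the normal subgroup of index two -/
def N0 : Subgroup G := D.comap pr

lemma D_normal : D.Normal := by
  constructor
  intro n hn g
  rw [mem_D] at *
  rw [Q.mul_b, Q.mul_b, Q.inv_b]
  linear_combination hn

instance : N0.Normal := D_normal.comap pr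

lemma XX_two {R : Type} [Group R] [Finite R] (hR : Group.IsSolvable R) (h : ∀ x : R, x * x = 1) :
    XX R := by
  have key : ∀ p : ℕ, p.Prime → p ≠ 2 → ¬ p ∣ Nat.card R := by
    intro p hp h2 hd
    have : Fact p.Prime := ⟨hp⟩
    obtain ⟨x, hx⟩ := exists_prime_orderOf_dvd_card' p hd
    have h3 : orderOf x ∣ 2 := orderOf_dvd_of_pow_eq_one (by rw [pow_two, h])
    rw [hx] at h3
    exact h2 ((Nat.prime_dvd_prime_iff_eq hp Nat.prime_two).mp h3)
  exact XX_of_card hR (key 3 (by norm_num) (by norm_num)) (key 5 (by norm_num) (by norm_num))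

lemma join_quot : join XX YY (G ⧸ N0) := by
  refine ⟨inferInstance, inferInstance, ?_⟩
  intro S T hS _
  have : S = ⊤ := by
    apply proj_top XX_surj hS
    apply XX_two inferInstance
    intro x
    obtain ⟨g, rfl⟩ := QuotientGroup.mk'_surjective N0 x
    rw [← map_mul, QuotientGroup.mk'_apply, QuotientGroup.eq_one_iff]
    change 2 * (g.q.b + g.q.b) = 0
    generalize g.q.b = z
    revert z; decide +kernel
  rw [this, top_sup_eq]

lemma five_pow (k : ℕ) : ((5 ^ k : ℕ) : ZMod 4) = 1 := by
  rw [Nat.cast_pow, show ((5 : ℕ) : ZMod 4) = 1 by decide, one_pow]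

lemma pow_b (q : Q) (n : ℕ) : (q ^ n).b = n * q.b := by
  induction n with
  | zero => simp [Q.one_b]
  | succ n ih => rw [pow_succ, Q.mul_b, ih]; push_cast; ring

lemma aux_two (p q : Q) (hp : 2 * p.b = 0) (hq : 2 * q.b = 0) (hq2 : q.b ≠ 0) (h1 : p ≠ 1)
    (h2 : p ≠ q) : ∃ k ∈ Finset.range 5, p ^ k = c ∨ (p * q) ^ k = c := by
  revert p q; decide +kernel

lemma sq_refl (q : Q) (hq : 2 * q.b = 0) (hq2 : q.b ≠ 0) : q * q = 1 := by
  revert q; decide +kernel

lemma join_N0 : join XX YY N0 := by
  refine ⟨inferInstance, inferInstance, ?_⟩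
  intro S T hS hT
  let π : N0 →* Q := pr.comp N0.subtype
  have hπ : ∀ x : N0, π x = (x : G).q := fun _ => rfl
  have hπD : ∀ x : N0, π x ∈ D := fun x => x.2
  have htr : ∀ v, tr v ∈ N0 := fun v => D.one_mem
  -- an element of order five in `T`
  have hTm := proj_max YY_surj hT
  have h1 : ∃ u ∈ T, π u = c := by
    have hne : T ≠ ⊥ := by
      intro h
      let c0 : N0 := ⟨sec c, c_mem_D⟩
      have h5 : c0 ^ 5 = 1 := by
        apply Subtype.ext
        change (sec c) ^ 5 = 1
        rw [← map_pow, show c ^ 5 = 1 by decide, map_one]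
      have h2 : Subgroup.zpowers c0 = T := by
        apply hTm.2 _ (by rw [h]; exact bot_le)
        refine ⟨inferInstance, inferInstance, ?_⟩
        rintro ⟨_, ⟨k, rfl⟩⟩
        refine ⟨1, Subtype.ext ?_⟩
        change (c0 ^ k) ^ 5 ^ 1 = 1
        rw [pow_one, ← zpow_natCast, ← zpow_mul, mul_comm, zpow_mul, zpow_natCast, h5, one_zpow]
      have h3 : c0 ∈ T := by rw [← h2]; exact Subgroup.mem_zpowers c0
      rw [h, Subgroup.mem_bot] at h3
      have h4 := congrArg (fun x : N0 => (x : G).q) h3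
      exact absurd h4 (by decide)
    obtain ⟨u, hu, hu1⟩ := T.bot_or_exists_ne_one.resolve_left hne
    obtain ⟨k, hk⟩ := hTm.1.2.2 ⟨u, hu⟩
    have hk2 : u ^ 5 ^ k = 1 := congrArg Subtype.val hk
    have h2 : (π u).b = 0 := by
      have h3 := congrArg (fun x => (π x).b) hk2
      simp only [map_pow, map_one, pow_b, Q.one_b] at h3
      rwa [five_pow, one_mul] at h3
    have h3 : π u ≠ 1 := by
      intro h
      apply hu1
      have h4 : u ^ 3 = 1 := by
        apply Subtype.ext
        change (u : G) ^ 3 = 1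
        rw [eq_tr (g := (u : G)) h, tr_pow, three_V, tr_zero]
      have h5 : Nat.Coprime 3 (5 ^ k) := Nat.Coprime.pow_right k (by norm_num)
      have h6 := pow_gcd_eq_one.mpr ⟨h4, hk2⟩
      rwa [h5.gcd_eq_one, pow_one] at h6
    obtain ⟨j, -, hj⟩ := c_of_trans _ h2 h3
    exact ⟨u ^ j, T.pow_mem hu j, by rw [map_pow, hj]⟩
  obtain ⟨u, huT, hu⟩ := h1
  -- a reflection in `S`
  have h2 : ∃ s ∈ S, (π s).b ≠ 0 := by
    by_contra hcon
    push Not at hcon
    let N1 : Subgroup N0 := (bHom.comp π).ker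
    have h3 : XX (N0 ⧸ N1) := by
      apply XX_two inferInstance
      intro x
      obtain ⟨g, rfl⟩ := QuotientGroup.mk'_surjective N1 x
      rw [← map_mul, QuotientGroup.mk'_apply, QuotientGroup.eq_one_iff]
      change (π g).b + (π g).b = 0
      rw [← two_mul]; exact hπD g
    have h4 := proj_cover XX_surj hS N1 h3
    let r : N0 := ⟨sec (t ^ 2), (by decide : t ^ 2 ∈ D)⟩
    have h5 : QuotientGroup.mk' N1 r ∈ S.map (QuotientGroup.mk' N1) := by rw [h4]; trivial
    obtain ⟨s, hs, hs2⟩ := h5
    have h6 : s⁻¹ * r ∈ N1 := QuotientGroup.eq.mp hs2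
    have h7 : -(π s).b + (t ^ 2).b = 0 := h6
    rw [hcon s hs] at h7
    exact absurd h7 (by decide)
  obtain ⟨s, hsS, hs⟩ := h2
  have huU : u ∈ S ⊔ T := (le_sup_right : T ≤ S ⊔ T) huT
  have hsU : s ∈ S ⊔ T := (le_sup_left : S ≤ S ⊔ T) hsS
  by_cases hV : ∃ v : V, v ≠ 0 ∧ (⟨tr v, htr v⟩ : N0) ∈ S ⊔ T
  · obtain ⟨v, hv, hvU⟩ := hV
    have h3 := all_tr (M := (S ⊔ T).map N0.subtype) (g := u) hu (by
      rintro _ ⟨m, hm, rfl⟩
      exact ⟨u * m * u⁻¹, Subgroup.mul_mem _ (Subgroup.mul_mem _ huU hm) (Subgroup.inv_mem _ huU),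
        rfl⟩) hv ⟨_, hvU, rfl⟩
    rw [eq_top_iff]
    rintro z -
    obtain ⟨i, -, k, -, hz⟩ := gen_two (π s) (hπD s) hs (π z) (hπD z)
    have h4 : π (z * (u ^ i * s ^ k)⁻¹) = 1 := by
      rw [map_mul, map_inv, map_mul, map_pow, map_pow, hu, ← hz, mul_inv_cancel]
    obtain ⟨y, hy, hy2⟩ := h3 ((z * (u ^ i * s ^ k)⁻¹ : N0) : G).v
    rw [← eq_tr (g := ((z * (u ^ i * s ^ k)⁻¹ : N0) : G)) h4] at hy2
    have h5 : y = z * (u ^ i * s ^ k)⁻¹ := Subtype.ext hy2
    have h6 : z = y * (u ^ i * s ^ k) := by rw [h5]; group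
    rw [h6]
    exact Subgroup.mul_mem _ hy
      (Subgroup.mul_mem _ (Subgroup.pow_mem _ huU i) (Subgroup.pow_mem _ hsU k))
  · exfalso
    have hinj : ∀ x ∈ S, π x = 1 → x = 1 := by
      intro x hx h
      by_contra hne
      apply hV
      refine ⟨(x : G).v, ?_, ?_⟩
      · intro h0
        apply hne
        apply Subtype.ext
        rw [eq_tr (g := (x : G)) h, h0]; rfl
      · have : (⟨tr (x : G).v, htr _⟩ : N0) = x := Subtype.ext (eq_tr h).symm
        rw [this]; exact (le_sup_left : S ≤ S ⊔ T) hx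
    have hSm := proj_max XX_surj hS
    have hS2 : ∀ x ∈ S, x = 1 ∨ x = s := by
      intro x hx
      by_contra hcon
      push Not at hcon
      have h3 : π x ≠ 1 := fun h => hcon.1 (hinj x hx h)
      have h4 : π x ≠ π s := by
        intro h
        apply hcon.2
        have := hinj (x * s⁻¹) (S.mul_mem hx (S.inv_mem hsS))
          (by rw [map_mul, map_inv, h, mul_inv_cancel])
        exact mul_inv_eq_one.mp this
      apply not_c_range hSm.1 (π.comp S.subtype) (fun n => hπD n)
      obtain ⟨k, -, hk | hk⟩ := aux_two (π x) (π s) (hπD x) (hπD s) hs h3 h4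
      · exact ⟨⟨x, hx⟩ ^ k, by rw [map_pow]; exact hk⟩
      · exact ⟨(⟨x, hx⟩ * ⟨s, hsS⟩) ^ k, by rw [map_pow, map_mul]; exact hk⟩
    have hss : s * s = 1 := hinj _ (S.mul_mem hsS hsS) (by
      rw [map_mul]; exact sq_refl _ (hπD s) hs)
    obtain ⟨w, hw0, hw⟩ := neg_vec (π s) (hπD s) hs
    let w0 : N0 := ⟨tr w, htr w⟩
    let K : Subgroup N0 := Subgroup.closure {s, w0}
    have hsK : s ∈ K := Subgroup.subset_closure (by simp)
    have hwK : w0 ∈ K := Subgroup.subset_closure (by simp)
    have hXK : XX K := by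
      apply XX_S3 inferInstance ⟨s, hsK⟩ ⟨w0, hwK⟩
      · exact Subtype.ext hss
      · apply Subtype.ext; apply Subtype.ext
        change (tr w) ^ 3 = 1
        rw [tr_pow, three_V, tr_zero]
      · apply Subtype.ext; apply Subtype.ext
        change (s : G) * tr w * (s : G)⁻¹ = (tr w)⁻¹
        rw [conj_tr, ← hπ, hw, eq_inv_iff_mul_eq_one, tr_mul, neg_add_cancel, tr_zero]
      · have h3 := Subgroup.closure_preimage_eq_top ({s, w0} : Set N0)
        rw [← h3]
        congr 1
        ext x
        simp only [Set.mem_insert_iff, Set.mem_singleton_iff, Set.mem_preimage, Subtype.ext_iff]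
        rfl
    have h4 : K = S := by
      apply hSm.2 K _ hXK
      intro x hx
      rcases hS2 x hx with rfl | rfl
      · exact K.one_mem
      · exact hsK
    apply hV
    refine ⟨w, hw0, (le_sup_left : S ≤ S ⊔ T) ?_⟩
    rw [← h4]; exact hwK

theorem main : ∃ X Y : GroupClass, IsSchunck X ∧ IsSchunck Y ∧ IsIdem X ∧ IsIdem Y ∧
    ¬ IsIdem (join X Y) := by
  refine ⟨XX, YY, isSchunck_XX, isSchunck_YY, idem_XX, idem_YY, ?_⟩
  intro h
  apply not_join_G
  exact (h G).mp ⟨inferInstance, inferInstance, N0, inferInstance, join_N0, join_quot⟩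

end Pool.Agent.H510Z.Schunck
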